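import Pool.Agent.H992.SF.Defs

/-!
# The joint random wave limit contains the joint law of the values (SF/VAL)
-/

set_option autoImplicit false
open MeasureTheory Filter Topology Complex ProbabilityTheory
open scoped ContDiff ENNReal

namespace Pool.Agent.H155.SF

open Pool.Agent.N661.BR (MW lin IsRandomWave J0)
open Pool.Agent.N661.BH (area loc)
open Pool.Agent.H992.SF (frameMean jChar S_VAL)

theorem meas_lin' {k : ℕ} (w : Fin k → ℂ) (t : Fin k → ℝ) : Measurable (lin w t) := by
  unfold lin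
  refine Finset.measurable_sum _ fun j _ => Measurable.const_mul ?_ _
  exact (measurable_pi_apply (w j)).comp measurable_subtype_coe

theorem J0_at_zero : J0 0 = 1 := by
  unfold J0
  have h : (fun α : ℝ => Real.cos (0 * Real.cos α)) = fun _ => (1 : ℝ) := by
    funext α
    rw [zero_mul, Real.cos_zero]
  rw [h, intervalIntegral.integral_const, sub_zero, smul_eq_mul, mul_one]
  have := Real.pi_pos
  field_simp

theorem char_zero {γ : Measure MW} (hγ : IsRandomWave γ) (s : ℝ) :
    ∫ f, Complex.exp (I * (lin (fun _ : Fin 1 => (0 : ℂ)) (fun _ : Fin 1 => s) f : ℝ)) ∂γ =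
      Complex.exp (-(s : ℂ) ^ 2 / 2) := by
  have h2 := hγ 1 (fun _ => 0) (fun _ => s)
  have hv : (∑ i : Fin 1, ∑ j : Fin 1, (fun _ : Fin 1 => s) i * (fun _ : Fin 1 => s) j *
      J0 ‖(fun _ : Fin 1 => (0 : ℂ)) i - (fun _ : Fin 1 => (0 : ℂ)) j‖) = s ^ 2 := by
    simp only [Finset.univ_unique, Finset.sum_singleton, sub_self, norm_zero, J0_at_zero]
    ring
  rw [hv] at h2
  have h1 := charFun_gaussianReal (μ := 0) (v := (s ^ 2).toNNReal) 1
  rw [← h2, charFun_apply, integral_map (meas_lin' _ _).aemeasurable (by fun_prop)] at h1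
  have h3 : ∫ f, Complex.exp (I * (lin (fun _ : Fin 1 => (0 : ℂ)) (fun _ : Fin 1 => s) f : ℝ)) ∂γ =
      ∫ f, Complex.exp (((inner ℝ (lin (fun _ : Fin 1 => (0 : ℂ)) (fun _ : Fin 1 => s) f)
        (1:ℝ) : ℝ) : ℂ) * I) ∂γ := by
    refine integral_congr_ae (Eventually.of_forall fun f => ?_)
    show _ = Complex.exp (((inner ℝ (lin _ _ f) (1:ℝ) : ℝ) : ℂ) * I)
    rw [mul_comm]
    congr 3
    simp
  rw [h3, h1]
  congr 1
  have h4 : (((s ^ 2).toNNReal : ℝ) : ℂ) = (s : ℂ) ^ 2 := by
    rw [Real.coe_toNNReal _ (sq_nonneg s)]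
    push_cast
    rfl
  rw [h4]
  push_cast
  ring

theorem frameMean_const (c : ℂ) : frameMean (fun _ => c) = c := by
  unfold frameMean
  rw [intervalIntegral.integral_const, sub_zero, ← two_mul]
  have h1 : (Real.pi : ℂ) ≠ 0 := Complex.ofReal_ne_zero.2 Real.pi_ne_zero
  rw [Complex.real_smul]
  push_cast
  field_simp
  ring

theorem frameMean_zero (G : ℂ → ℂ) : frameMean (fun R => G (R 0)) = G 0 := by
  have h : frameMean (fun R => G (R 0)) = frameMean (fun _ => G 0) := by
    unfold frameMean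
    simp only [map_zero, mul_zero]
  rw [h, frameMean_const]

theorem vals : S_VAL := by
  intro d Ω lam u γ _ hγ ψ h t
  have h1 := h 1 (fun _ _ => 0) (fun i _ => t i)
  have e1 : ∀ n, jChar Ω ψ (fun i => lam i n) (fun i => u i n) (fun _ _ => (0 : ℂ) : Fin d → Fin 1 → ℂ)
      (fun i _ => t i) = ∫ z in Ω, ((ψ z / z.im ^ 2 : ℝ) : ℂ) *
        Complex.exp (I * ((∑ i, t i * u i n z : ℝ) : ℂ)) := by
    intro n
    unfold jChar area
    congr 1
    funext z
    have e2 := frameMean_zero (fun v => Complex.exp (I *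
      ((∑ i, ∑ _j : Fin 1, t i * loc (lam i n) (u i n) z v : ℝ) : ℂ)))
    beta_reduce
    rw [e2]
    simp only [loc, mul_zero, add_zero, Finset.univ_unique, Finset.sum_singleton]
    push_cast
    ring
  have e3 : (∏ i, ∫ f, Complex.exp (I * (lin (fun _ : Fin 1 => (0 : ℂ)) (fun _ : Fin 1 => t i) f : ℝ))
      ∂γ) * area Ω (fun z => (ψ z : ℂ)) =
      Complex.exp (-(∑ i, (t i : ℂ) ^ 2) / 2) * ∫ z in Ω, ((ψ z / z.im ^ 2 : ℝ) : ℂ) := by
    congr 1
    · rw [Finset.prod_congr rfl fun i _ => char_zero hγ (t i), ← Complex.exp_sum]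
      congr 1
      rw [← Finset.sum_div, Finset.sum_neg_distrib]
    · unfold area
      congr 1
      funext z
      push_cast
      ring
  rw [← e3]
  exact h1.congr e1

end Pool.Agent.H155.SF
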